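import Pool.Agent.H.MP_315024_al.B

namespace Pool.Agent.Results.MP_315024_al.No

open CategoryTheory CategoryTheory.Abelian Pool.Agent.H.MP_315024_al

universe u

/-- the defining relations of a quantum complete intersection -/
inductive QRel (K : Type u) [Field K] (n : ℕ) (a : Fin n → ℕ) (q : Fin n → Fin n → K) :
    FreeAlgebra K (Fin n) → FreeAlgebra K (Fin n) → Prop
  | pow (i : Fin n) : QRel K n a q (FreeAlgebra.ι K i ^ a i) 0
  | comm (i j : Fin n) (h : j < i) : QRel K n a q
      (FreeAlgebra.ι K i * FreeAlgebra.ι K j + q i j • (FreeAlgebra.ι K j * FreeAlgebra.ι K i)) 0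

/-- the quantum complete intersection -/
abbrev QCI (K : Type u) [Field K] (n : ℕ) (a : Fin n → ℕ) (q : Fin n → Fin n → K) : Type u :=
  RingQuot (QRel K n a q)

section abstract
variable {K R : Type u} [Field K] [Ring R] [Algebra K R] {b : ℕ → ℕ} {r : ℕ → ℕ → K} {n : ℕ}
  {g : ℕ → R}
  {M W : Type u} [AddCommGroup M] [Module K M] [Module R M] [IsScalarTower K R M]
  [AddCommGroup W] [Module K W] [Module R W] [IsScalarTower K R W]

def Gen (K : Type u) [Field K] [Algebra K R] (n : ℕ) (g : ℕ → R) : Prop :=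
  ∀ P : R → Prop, (∀ c, P (algebraMap K R c)) → (∀ i < n, P (g i)) →
    (∀ x y, P x → P y → P (x * y)) → (∀ x y, P x → P y → P (x + y)) → ∀ x, P x

def lin (hg : Gen K n g) (s : M →ₗ[K] W) (hs : ∀ i < n, ∀ m, s (g i • m) = g i • s m) :
    M →ₗ[R] W where
  toFun := s
  map_add' := s.map_add
  map_smul' x := hg (fun x => ∀ m, s (x • m) = x • s m)
    (fun c m => by simp only [algebraMap_smul, map_smul]) hs
    (fun x y hx hy m => by rw [mul_smul, hx, hy, mul_smul])
    (fun x y hx hy m => by rw [add_smul, map_add, hx, hy, add_smul]) x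

def Sn (x : R) (w : M →ₗ[K] W) : ℕ → M →ₗ[K] W
  | 0 => w
  | m + 1 => (Algebra.lsmul K K W x).comp (Sn x w m) + w.comp (Algebra.lsmul K K M (x ^ (m + 1)))

lemma Sn_succ (x : R) (w : M →ₗ[K] W) (m : ℕ) (v : M) :
    Sn x w (m + 1) v = x • Sn x w m v + w (x ^ (m + 1) • v) := rfl

lemma proj (hg : Gen K n g) (hR : Rel b r n g) (hr : ∀ j, ∀ i < j, r i j ≠ 0)
    (hH : ∀ k < n, Hig b r k (fun i => Algebra.lsmul K K M (g i))) : Module.Projective R M := by
  refine Module.Projective.of_lifting_property'' fun f hf => ?_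
  have key : ∀ k ≤ n, ∃ s : M →ₗ[K] (M →₀ R), (∀ m, f (s m) = m) ∧
      ∀ i < k, ∀ m, s (g i • m) = g i • s m := by
    intro k
    induction k with
    | zero =>
      intro _
      obtain ⟨s, hs⟩ := (f.restrictScalars K).exists_rightInverse_of_surjective
        (LinearMap.range_eq_top.2 hf)
      exact ⟨s, fun m => LinearMap.congr_fun hs m, fun i hi => by omega⟩
    | succ k ih =>
      intro hk
      obtain ⟨s, hs, hs'⟩ := ih (by omega)
      obtain ⟨t, ht, ht'⟩ := hH k (by omega)
      have h0 : g k ^ (b k + 1) = 0 := hR.1 k (by omega)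
      refine ⟨Sn (g k) (s.comp t) (b k), fun v => ?_, fun i hi v => ?_⟩
      · have : ∀ m v, f (Sn (g k) (s.comp t) m v) =
            Nm (Algebra.lsmul K K M (g k)) (Algebra.lsmul K K M (g k)) m t v := by
          intro m
          induction m with
          | zero => exact fun v => hs _
          | succ m ih =>
            intro v
            rw [Sn_succ, map_add, map_smul, ih, LinearMap.comp_apply, hs, Nm, ← map_pow]
            rfl
        rw [this, ht']; rfl
      · rcases Nat.lt_succ_iff_lt_or_eq.1 hi with h' | rfl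
        · have c1 := hR.2 k (by omega) i h'
          have c2 : ∀ v, r i k ^ b k • s (t (g i • v)) = g i • s (t v) := fun v => by
            rw [← hs' i h', ← map_smul]
            exact congrArg s (LinearMap.congr_fun (ht i h') v)
          have : ∀ m v, r i k ^ b k • Sn (g k) (s.comp t) m (g i • v) =
              r i k ^ m • g i • Sn (g k) (s.comp t) m v := by
            intro m
            induction m with
            | zero => intro v; rw [pow_zero, one_smul]; exact c2 v
            | succ m ih =>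
              intro v
              rw [Sn_succ, Sn_succ, smul_add, smul_comm, ih, smul_comm (g k), ← mul_smul (g k), c1,
                ← mul_smul (g k ^ (m + 1)), pow_comm'' c1, smul_assoc, smul_assoc, map_smul,
                smul_comm (r i k ^ b k), mul_smul, mul_smul, LinearMap.comp_apply, c2, smul_smul,
                ← pow_succ, smul_add, smul_add]
              rfl
          exact smul_right_injective _ (pow_ne_zero _ (hr k i h')) (this (b k) v)
        · have : ∀ m v, g i • Sn (g i) (s.comp t) m v - Sn (g i) (s.comp t) m (g i • v) =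
              g i ^ (m + 1) • s (t v) - s (t (g i ^ (m + 1) • v)) := by
            intro m
            induction m with
            | zero => intro v; simp [Sn]
            | succ m ih =>
              intro v
              have := congrArg (g i • ·) (ih v)
              simp only [smul_sub, ← mul_smul, ← pow_succ'] at this
              rw [Sn_succ, Sn_succ, smul_add, ← mul_smul (g i ^ (m + 1)), ← pow_succ,
                ← mul_smul]
              simp only [LinearMap.comp_apply]
              linear_combination (norm := abel1) this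
          have := this (b i) v
          rw [h0, zero_smul, zero_smul, map_zero, map_zero, sub_zero, sub_eq_zero] at this
          exact this.symm
  obtain ⟨s, hs, hs'⟩ := key n le_rfl
  exact ⟨lin hg s hs', LinearMap.ext hs⟩

def Ex (_ : R →ₐ[K] Module.End K (M × M)) : Type u := M × M

instance (ψ : R →ₐ[K] Module.End K (M × M)) : AddCommGroup (Ex ψ) :=
  inferInstanceAs (AddCommGroup (M × M))
instance (ψ : R →ₐ[K] Module.End K (M × M)) : Module K (Ex ψ) :=
  inferInstanceAs (Module K (M × M))
instance (ψ : R →ₐ[K] Module.End K (M × M)) : Module R (Ex ψ) :=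
  Module.compHom (M × M) ψ.toRingHom
instance (ψ : R →ₐ[K] Module.End K (M × M)) : IsScalarTower K R (Ex ψ) :=
  ⟨fun c x v => by
    change ψ (c • x) v = c • ψ x v
    rw [map_smul]; rfl⟩

def blk (X Y : Module.End K M) : Module.End K (M × M) :=
  (X.coprod Y).prod (X.comp (LinearMap.snd K M M))

omit [Module R M] [IsScalarTower K R M] in
lemma blk_apply (X Y : Module.End K M) (v : M × M) : blk X Y v = (X v.1 + Y v.2, X v.2) := rfl

omit [Module R M] [IsScalarTower K R M] in
lemma blk_mul (X Y X' Y' : Module.End K M) :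
    blk X Y * blk X' Y' = blk (X * X') (Y * X' + X * Y') := by
  refine LinearMap.ext fun v => ?_
  simp only [Module.End.mul_apply, blk_apply, map_add, LinearMap.add_apply]
  congr 1; abel

omit [Module R M] [IsScalarTower K R M] in
lemma blk_pow (X Y : Module.End K M) (m : ℕ) :
    blk X Y ^ (m + 1) = blk (X ^ (m + 1)) (Nm X X m Y) := by
  induction m with
  | zero => simp [Nm]
  | succ m ih => rw [pow_succ', ih, blk_mul, ← pow_succ', Nm, add_comm (Y * _)]

lemma rigid (hg : Gen K n g) (hR : Rel b r n g)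
    (hu : ∀ Z : ℕ → Module.End K (M × M), Rel b r n Z →
      ∃ ψ : R →ₐ[K] Module.End K (M × M), ∀ i < n, ψ (g i) = Z i)
    (h : ∀ e : Ext.{u} (ModuleCat.of R M) (ModuleCat.of R M) 1, e = 0) :
    Rigid b r n (fun i => Algebra.lsmul K K M (g i)) := by
  intro Y hY
  have hR' := hR.map (Algebra.lsmul K K M).toRingHom id
    (fun c x => map_smul (Algebra.lsmul K K M) c x)
  obtain ⟨ψ, hψ⟩ := hu (fun i => blk (Algebra.lsmul K K M (g i)) (Y i)) ⟨fun i hi => by
    rw [blk_pow, hY.1 i hi, show (Algebra.lsmul K K M (g i)) ^ (b i + 1) = 0 from hR'.1 i hi]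
    refine LinearMap.ext fun v => ?_
    simp [blk_apply], fun j hj i hi => by
      rw [blk_mul, blk_mul, hY.2 j hj i hi, show (Algebra.lsmul K K M (g j)) *
        Algebra.lsmul K K M (g i) = r i j • (Algebra.lsmul K K M (g i) * Algebra.lsmul K K M (g j))
        from hR'.2 j hj i hi]
      refine LinearMap.ext fun v => ?_
      simp [blk_apply]⟩
  have act : ∀ i < n, ∀ v : Ex ψ, g i • v = ((g i • v.1 + Y i v.2, g i • v.2) : M × M) := by
    intro i hi v
    change ψ (g i) v = _
    rw [hψ i hi]; rfl
  let j1 : M →ₗ[K] Ex ψ := LinearMap.inl K M M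
  let q2 : Ex ψ →ₗ[K] M := LinearMap.snd K M M
  let q1 : Ex ψ →ₗ[K] M := LinearMap.fst K M M
  let i1 : M →ₗ[R] Ex ψ := lin hg j1 (fun i hi m => by
    rw [act i hi]
    change ((g i • m, 0) : M × M) = (g i • m + Y i 0, g i • 0)
    simp)
  let p2 : Ex ψ →ₗ[R] M := lin hg q2 (fun i hi m => by rw [act i hi]; rfl)
  let S : ShortComplex (ModuleCat.{u} R) :=
    ShortComplex.mk (ModuleCat.ofHom i1) (ModuleCat.ofHom p2) (by ext; rfl)
  have hS : S.ShortExact := ModuleCat.shortComplex_shortExact S
    (Function.Exact.inl_snd (R := K)) (LinearMap.inl_injective (R := K))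
    (LinearMap.snd_surjective (R := K))
  obtain ⟨x, hx⟩ := Ext.covariant_sequence_exact₃ S.X₃ hS (Ext.mk₀ (𝟙 _)) (zero_add 1) (h _)
  obtain ⟨σ, rfl⟩ := Ext.addEquiv₀.symm.surjective x
  have hσ : σ ≫ S.g = 𝟙 _ := by
    apply Ext.addEquiv₀.symm.injective
    simpa using hx
  have hσ' : ∀ m : M, (σ.hom m).2 = m := fun m => LinearMap.congr_fun (congrArg (·.hom) hσ) m
  let τ : M →ₗ[R] Ex ψ := σ.hom
  refine ⟨-(q1.comp (τ.restrictScalars K)), fun i hi => ?_⟩
  refine LinearMap.ext fun m => ?_
  have := congrArg Prod.fst ((τ.map_smul (g i) m).trans (act i hi _))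
  change (τ (g i • m)).1 = g i • (τ m).1 + Y i (σ.hom m).2 at this
  rw [hσ'] at this
  change Y i m = g i • -(τ m).1 - -(τ (g i • m)).1
  rw [this, smul_neg]; abel

end abstract

theorem result (K : Type u) [Field K] (n : ℕ) (a : Fin n → ℕ) (ha : ∀ i, 2 ≤ a i)
    (q : Fin n → Fin n → K) (hq : ∀ i j, j < i → q i j ≠ 0)
    (M : Type u) [AddCommGroup M] [Module K M] [Module (QCI K n a q)ᵐᵒᵖ M]
    [IsScalarTower K (QCI K n a q)ᵐᵒᵖ M] [FiniteDimensional K M]
    (hM : ¬ Module.Projective (QCI K n a q)ᵐᵒᵖ M) :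
    ∃ e : Ext.{u} (ModuleCat.of (QCI K n a q)ᵐᵒᵖ M) (ModuleCat.of (QCI K n a q)ᵐᵒᵖ M) 1,
      e ≠ 0 := by
  by_contra hc
  push Not at hc
  apply hM
  let π := RingQuot.mkAlgHom K (QRel K n a q)
  let g : ℕ → (QCI K n a q)ᵐᵒᵖ := fun i =>
    if h : i < n then MulOpposite.op (π (FreeAlgebra.ι K ⟨i, h⟩)) else 0
  let b : ℕ → ℕ := fun i => if h : i < n then a ⟨i, h⟩ - 1 else 0
  let r : ℕ → ℕ → K := fun i j => if h : i < j ∧ j < n then
    -(q ⟨j, h.2⟩ ⟨i, h.1.trans h.2⟩)⁻¹ else 1
  have hb : ∀ i (h : i < n), b i + 1 = a ⟨i, h⟩ := fun i h => by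
    have := ha ⟨i, h⟩
    simp only [b, dif_pos h]; omega
  have hr : ∀ j, ∀ i < j, r i j ≠ 0 := fun j i hi => by
    simp only [r]
    split_ifs with h
    · exact neg_ne_zero.2 (inv_ne_zero (hq _ _ h.1))
    · exact one_ne_zero
  have hg : Gen K n g := by
    intro P h1 h2 h3 h4 x
    obtain ⟨y, hy⟩ := RingQuot.mkAlgHom_surjective K (QRel K n a q) x.unop
    have : ∀ y, P (MulOpposite.op (π y)) := by
      intro y
      induction y using FreeAlgebra.induction with
      | grade0 c => rw [AlgHom.commutes]; exact h1 c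
      | grade1 i => simpa [g] using h2 i i.2
      | mul x y hx hy => rw [map_mul, MulOpposite.op_mul]; exact h3 _ _ hy hx
      | add x y hx hy => rw [map_add, MulOpposite.op_add]; exact h4 _ _ hx hy
    have := this y
    rwa [hy] at this
  have hR : Rel b r n g := by
    refine ⟨fun i hi => ?_, fun j hj i hi => ?_⟩
    · have := RingQuot.mkAlgHom_rel K (QRel.pow (K := K) (a := a) (q := q) ⟨i, hi⟩)
      simp only [g, dif_pos hi, hb i hi]
      rw [← MulOpposite.op_pow, ← map_pow, this, map_zero, MulOpposite.op_zero]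
    · have hi' : i < n := hi.trans hj
      have := RingQuot.mkAlgHom_rel K (QRel.comm (K := K) (a := a) (q := q) ⟨j, hj⟩ ⟨i, hi'⟩ hi)
      rw [map_add, map_smul, map_mul, map_mul, map_zero, add_eq_zero_iff_eq_neg] at this
      simp only [g, r, dif_pos hi', dif_pos hj, dif_pos (And.intro hi hj)]
      rw [← MulOpposite.op_mul, ← MulOpposite.op_mul, ← MulOpposite.op_smul, this, smul_neg,
        smul_smul, neg_mul, inv_mul_cancel₀ (hq ⟨j, hj⟩ ⟨i, hi'⟩ hi), neg_smul, neg_neg, one_smul]
  have hrig := rigid hg hR (M := M) (fun Z hZ => by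
    let φ : FreeAlgebra K (Fin n) →ₐ[K] (Module.End K (M × M))ᵐᵒᵖ :=
      FreeAlgebra.lift K fun i => MulOpposite.op (Z i)
    refine ⟨AlgHom.opComm (RingQuot.liftAlgHom K ⟨φ, ?_⟩), fun i hi => ?_⟩
    · rintro _ _ (i | ⟨j, i, h⟩)
      · simp only [φ, map_pow, FreeAlgebra.lift_ι_apply, map_zero]
        rw [← MulOpposite.op_pow, ← hb i i.2, hZ.1 i i.2, MulOpposite.op_zero]
      · simp only [φ, map_add, map_mul, map_smul, FreeAlgebra.lift_ι_apply, map_zero]
        have := hZ.2 j j.2 i h
        simp only [r, dif_pos (And.intro (show (i : ℕ) < j from h) j.2)] at this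
        rw [← MulOpposite.op_mul, ← MulOpposite.op_mul, ← MulOpposite.op_smul, this, smul_smul,
          mul_neg, mul_inv_cancel₀ (hq j i h), ← MulOpposite.op_add]
        simp
    · simp [g, hi, π, φ]) hc
  refine proj hg hR hr fun k hk => ?_
  let β := Module.finBasis K M
  let e := LinearMap.toMatrixAlgEquiv β
  have hR' := (hR.map (Algebra.lsmul K K M).toRingHom id
    (fun c x => map_smul (Algebra.lsmul K K M) c x)).map
    e.toAlgHom.toRingHom id (fun c x => map_smul e c x)
  obtain ⟨t, ht, ht'⟩ := hig hr n hR' (fun Y hY => by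
    obtain ⟨φ, hφ⟩ := hrig (fun i => e.symm (Y i)) ⟨fun i hi => by
      apply e.injective
      rw [Nm_map, map_zero, e.apply_symm_apply]
      exact hY.1 i hi, fun j hj i hi => by
        apply e.injective
        simp only [map_add, map_mul, map_smul, e.apply_symm_apply]
        exact hY.2 j hj i hi⟩
    refine ⟨e φ, fun i hi => ?_⟩
    have := congrArg e (hφ i hi)
    simp only [map_sub, map_mul, e.apply_symm_apply] at this
    exact this) k hk
  refine ⟨e.symm t, fun i hi => e.injective ?_, e.injective ?_⟩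
  · simp only [map_mul, map_smul, e.apply_symm_apply]
    exact ht i hi
  · rw [Nm_map, map_one, e.apply_symm_apply]
    exact ht'

end Pool.Agent.Results.MP_315024_al.No
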